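import Pool.Agent.Run7.h133.RayEx
import Pool.Agent.Run7.h133.RayEight

set_option autoImplicit false

/-!
# Three excluded minors with eight elements for the ternary Rayleigh matroids (MP_c69b6d_co)
-/

namespace Pool.Agent.Results.MP_c69b6d_co.ThreeExcludedMinors

open Matroid Pool.Agent.Run7.h133.Ray

/-- Three pairwise non-isomorphic ternary matroids of rank four with eight elements, given by
matrices `[I | D]` over the field with three elements: each of them is an excluded minor for the
class of the ternary Rayleigh matroids. -/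
theorem result :
    let X : Fin 3 → Matroid (Fin (4 + 4)) := ![
      colMatroid (K := ZMod 3) !![1, 1, 1, 1; 1, 1, 1, 0; 1, 0, 0, 1; 0, 1, 0, 1],
      colMatroid (K := ZMod 3) !![1, 1, 0, 1; 1, 0, 1, 1; 1, 0, 1, 0; 0, 1, 1, 1],
      colMatroid (K := ZMod 3) !![1, 1, 0, 1; 1, 0, 1, 2; 1, 0, 1, 1; 0, 1, 1, 1]]
    (∀ i, RayleighExcludedMinor (ZMod 3) (X i)) ∧ ∀ i j, i ≠ j → ¬ Iso (X i) (X j) := by
  intro X
  have h0 : X 0 = colMatroid E8.X49 := rfl
  have h1 : X 1 = colMatroid E8.X52 := rfl
  have h2 : X 2 = colMatroid E8.X56 := rfl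
  have n0 : Set.ncard {B | (X 0).IsBase B} = 49 := by
    rw [h0]; exact (E8.X49_hb.1.ncard).trans E8.X49_len
  have n1 : Set.ncard {B | (X 1).IsBase B} = 52 := by
    rw [h1]; exact (E8.X52_hb.1.ncard).trans E8.X52_len
  have n2 : Set.ncard {B | (X 2).IsBase B} = 56 := by
    rw [h2]; exact (E8.X56_hb.1.ncard).trans E8.X56_len
  refine ⟨?_, ?_⟩
  · intro i
    fin_cases i
    · exact excluded_eight E8.X49_hb (ys := [1, 1, 1, 2, 1, 1, 1, 1]) (e := 6) (f := 7) rfl
        (by decide) (by decide) (by decide +kernel)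
    · exact excluded_eight E8.X52_hb (ys := [2, 2, 1, 2, 1, 1, 1, 2]) (e := 2) (f := 5) rfl
        (by decide) (by decide) (by decide +kernel)
    · exact excluded_eight E8.X56_hb (ys := [53, 1, 1, 44, 9, 1, 9, 1]) (e := 1) (f := 5) rfl
        (by decide) (by decide) (by decide +kernel)
  · intro i j hij hiso
    have h := hiso.ncard
    fin_cases i <;> fin_cases j <;> simp only [Fin.zero_eta, Fin.mk_one, Fin.reduceFinMk] at h hij
    all_goals first
      | exact hij rfl
      | (rw [n0, n1] at h; omega)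
      | (rw [n0, n2] at h; omega)
      | (rw [n1, n0] at h; omega)
      | (rw [n1, n2] at h; omega)
      | (rw [n2, n0] at h; omega)
      | (rw [n2, n1] at h; omega)

end Pool.Agent.Results.MP_c69b6d_co.ThreeExcludedMinors
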